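import Pool.Agent.U598.GR.Main

/-!
# The degree bound in the penultimate interval

Let `X ⊂ ℙ^c` be a zero-dimensional complete intersection of hypersurfaces of degrees
`d_1 ≤ ⋯ ≤ d_c`. The question is whether every subscheme `Γ` of `X` which fails to impose independent
conditions on the forms of degree `m` has `deg Γ ≥ (e + 1) d_{k+2} ⋯ d_c`, where
`∑_{i ≥ k+2} (d_i - 1) ≤ m + 1 < ∑_{i ≥ k+1} (d_i - 1)` and `e = m + 1 - ∑_{i ≥ k+2} (d_i - 1)`. The case
`k = c - 1` (the bound is `m + 2`) is known. In the next case, `k = c - 2`, one has `m + 2 = d_c + e`, and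
the bound is `(e + 1) d_c`.

**Theorem.** The bound holds in the case `k = c - 2`, for all closed subschemes `Γ` (reduced or not) of
zero-dimensional complete intersections over algebraically closed fields of any characteristic. It is not
necessary that `X` is a complete intersection: `X` can be any scheme with finitely many points which is
cut out by hypersurfaces of degree at most `a`; then `deg Γ ≥ (e + 1) a` if `Γ` fails in degree
`m = a + e - 2` and `e + 1 ≤ a`.

## Proof

Let `J` be the saturated ideal of `Γ`, `h` its Hilbert function, and let `q` be a linear form without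
zeros on `X`. There is `s > m` with `h(s - 1) < h(s)`; so there is a linear form `λ ≠ 0` on the
polynomials of degree `s` which vanishes on `J` and on the multiples of `q`. Let `h_j` be the rank of the
pairing `(f, g) ↦ λ(f g)` of the polynomials of degrees `j` and `s - j`. Then `∑ h_j ≤ h(s) ≤ deg Γ` and
`h_j = h_{s-j}`. It is enough that `h_i ≥ min(i, e) + 1` for `2 i ≤ s`.

Let `I_j` be the radical of the pairing in degree `j`, and assume `h_i ≤ i`, `2 i ≤ s`, `i ≥ 1`. For a
general linear form `ℓ` all polynomials of degree `i` are in `I_i + (ℓ)` (`Green.green`, restriction to a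
general hyperplane). By duality the multiplication with `ℓ` is bijective, modulo `I`, from degree `j` to
`j + 1` for `i - 1 ≤ j ≤ s - i`. So `h_{i-1} = h_i`, and the quotients `X_k / ℓ` act as commuting
operators on the polynomials of degree `i - 1` modulo `I`. A joint eigenvector `F`, `X_k F = z_k ℓ F`,
gives a point `z ≠ 0` at which all elements of `I` of degree at most `s - i + 1` vanish. If `i ≤ e`, these
are `q` and the equations of `X`, which have no common zero; so `h_i ≥ i + 1` for `i ≤ e`, and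
`h_i ≥ e + 1` for `i > e` by induction.
-/

set_option autoImplicit false

open MvPolynomial

namespace Pool.Agent.Results.MP_47ab85_ag.PenultimateInterval

/-- **The degree bound in the penultimate interval.** Let `K` be an algebraically closed field, and let
`F_1, …, F_t` be forms of degrees at most `a` on `ℙ^c` with only finitely many common zeros (for instance
the equations of a zero-dimensional complete intersection of type `d_1 ≤ ⋯ ≤ d_c = a`). Let `J` be a
saturated homogeneous ideal which contains the `F_i` (the ideal of a closed subscheme `Γ`), `h` the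
Hilbert function of its coordinate ring, and `D = deg Γ` the final value of `h`. Let `m + 2 = a + e` and
`e + 1 ≤ a`. If `h(m) < D`, so that `Γ` fails to impose independent conditions on forms of degree `m`, then
`(e + 1) a ≤ deg Γ`. -/
theorem result (K : Type) [Field K] [IsAlgClosed K] (c t a m e : ℕ) (hm : m + 2 = a + e)
    (he : e + 1 ≤ a) (F : Fin t → MvPolynomial (Fin (c + 1)) K) (d : Fin t → ℕ)
    (hF : ∀ i, (F i).IsHomogeneous (d i)) (hd : ∀ i, d i ≤ a)
    (hfin : ∀ j : Fin (c + 1), Set.Finite {x : Fin (c + 1) → K | x j = 1 ∧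
      ∀ i, eval x (F i) = 0})
    (J : Ideal (MvPolynomial (Fin (c + 1)) K))
    (_hJ : ∀ f ∈ J, ∀ n : ℕ, homogeneousComponent n f ∈ J)
    (hsat : ∀ f : MvPolynomial (Fin (c + 1)) K,
      (∃ N : ℕ, ∀ i : Fin (c + 1), X i ^ N * f ∈ J) → f ∈ J)
    (hFJ : ∀ i, F i ∈ J) (h : ℕ → ℕ)
    (hh : ∀ n : ℕ, h n = Module.finrank K (homogeneousSubmodule (Fin (c + 1)) K n) -
      Module.finrank K
        ↥(Submodule.restrictScalars K J ⊓ homogeneousSubmodule (Fin (c + 1)) K n))
    (D : ℕ) (hD : ∃ N : ℕ, ∀ n ≥ N, h n = D) (hmD : h m < D) :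
    (e + 1) * a ≤ D :=
  Pool.Agent.U598.GR.degree_bound (by omega) hm he F d hF hd hfin J hsat hFJ h hh D hD hmD

/-- the question for `k = c - 2` -/
theorem question (K : Type) [Field K] [IsAlgClosed K] (c : ℕ) (d : ℕ → ℕ)
    (F : ℕ → MvPolynomial (Fin (c + 1)) K)
    (hd1 : ∀ i ∈ Finset.Icc 1 c, 1 ≤ d i)
    (hd : ∀ i j : ℕ, 1 ≤ i → i ≤ j → j ≤ c → d i ≤ d j)
    (hF : ∀ i ∈ Finset.Icc 1 c, F i ≠ 0 ∧ (F i).IsHomogeneous (d i))
    (hfin : ∀ j : Fin (c + 1), Set.Finite {x : Fin (c + 1) → K |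
      x j = 1 ∧ ∀ i ∈ Finset.Icc 1 c, eval x (F i) = 0})
    (J : Ideal (MvPolynomial (Fin (c + 1)) K))
    (hJ : ∀ f ∈ J, ∀ n : ℕ, homogeneousComponent n f ∈ J)
    (hsat : ∀ f : MvPolynomial (Fin (c + 1)) K,
      (∃ N : ℕ, ∀ i : Fin (c + 1), X i ^ N * f ∈ J) → f ∈ J)
    (hFJ : ∀ i ∈ Finset.Icc 1 c, F i ∈ J) (h : ℕ → ℕ)
    (hh : ∀ n : ℕ, h n = Module.finrank K (homogeneousSubmodule (Fin (c + 1)) K n) -
      Module.finrank K
        ↥(Submodule.restrictScalars K J ⊓ homogeneousSubmodule (Fin (c + 1)) K n))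
    (D : ℕ) (hD : ∃ N : ℕ, ∀ n ≥ N, h n = D) (m k : ℕ) (hk : k + 2 = c)
    (h1 : (∑ i ∈ Finset.Icc (k + 2) c, (d i - 1)) ≤ m + 1)
    (h2 : m + 1 < ∑ i ∈ Finset.Icc (k + 1) c, (d i - 1)) (hmD : h m < D) :
    (m + 1 - (∑ i ∈ Finset.Icc (k + 2) c, (d i - 1)) + 1) * ∏ i ∈ Finset.Icc (k + 2) c, d i ≤ D := by
  subst hk
  rw [Finset.sum_Icc_succ_top (by omega), Finset.Icc_self, Finset.sum_singleton] at h2
  rw [Finset.Icc_self, Finset.sum_singleton] at h1
  rw [Finset.Icc_self, Finset.sum_singleton, Finset.prod_singleton]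
  have h2' : m + 1 < (d (k + 1) - 1) + (d (k + 2) - 1) := h2
  have h3 := hd1 (k + 2) (Finset.mem_Icc.2 ⟨by omega, le_rfl⟩)
  have h4 := hd (k + 1) (k + 2) (by omega) (by omega) le_rfl
  have h5 : ∀ i : Fin (k + 2), i.1 + 1 ∈ Finset.Icc 1 (k + 2) := fun i =>
    Finset.mem_Icc.2 ⟨by omega, i.2⟩
  refine result K (k + 2) (k + 2) (d (k + 2)) m (m + 1 - (d (k + 2) - 1)) (by omega)
    (by omega) (fun i => F (i.1 + 1)) (fun i => d (i.1 + 1)) (fun i => (hF _ (h5 i)).2)
    (fun i => hd _ _ (by omega) i.2 le_rfl) (fun j => (hfin j).subset ?_) J hJ hsat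
    (fun i => hFJ _ (h5 i)) h hh D hD hmD
  rintro x ⟨hx, hxF⟩
  refine ⟨hx, fun i hi => ?_⟩
  rw [Finset.mem_Icc] at hi
  have h6 := hxF ⟨i - 1, by omega⟩
  have h7 : i - 1 + 1 = i := by omega
  simp only [h7] at h6
  exact h6

end Pool.Agent.Results.MP_47ab85_ag.PenultimateInterval
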