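import Pool.Agent.U598.PS.Egh2

/-!
# The degree bound for sets of points of complete intersections, up to a constant

Let `X ⊂ ℙ^c` be a zero-dimensional complete intersection of hypersurfaces of degrees
`d_1 ≤ ⋯ ≤ d_c` over an algebraically closed field. The question is whether every subscheme `Γ` of `X`
which fails to impose independent conditions on the forms of degree `m` has
`deg Γ ≥ (e + 1) d_{k+2} ⋯ d_c`, where `∑_{i ≥ k+2} (d_i - 1) ≤ m + 1 < ∑_{i ≥ k+1} (d_i - 1)` and
`e = m + 1 - ∑_{i ≥ k+2} (d_i - 1)`.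

**Theorem.** For finite sets `Γ` of points of `X` this is true up to a constant which depends only
on `c`: `(e + 1) d_{k+2} ⋯ d_c ≤ (2 c) ^ c (4 c) ^ (c (c + 1) / 2) deg Γ`.

## Proof

Let `λ` be the coefficients of a relation between the values at the points of `Γ` of the forms of
degree `m`; one can assume that they are not zero. For a point `ρ ∈ Γ` and an integer `t` let `D(ρ, t)` be
the dimension at `ρ` of the zero set of all polynomials of degree at most `t` which vanish on `Γ`, and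
let `e_1 ≥ e_2 ≥ ⋯ ≥ e_s` be its jumps, `D(ρ, t) ≥ j ↔ t ≤ e_j`; here `s` is the dimension of the linear
span of `Γ`.

1. (`Step`, `Frame`) For each `i`, the point `ρ` is an isolated zero of a system of equations which vanish
on `Γ`, whose degrees are `e_s + 1, …, e_{j+1} + 1`, `j = D(ρ, d_i)`, and some of the
`d_{i+1}, …, d_c` (one for each further step; the `F_i` have a finite zero set, so the dimension can
always be lowered).

2. (`Pts.exact`) By the residue theorem at the isolated zeros (Scheja and Storch), a relation of degree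
`m` with non-zero coefficients gives `m < ∑ (degrees - 1)`, so
`m < ∑_{j' > j} e_{j'} + ∑_{i' > i} (d_{i'} - 1)`.

3. (`Egh.comb_egh`) These inequalities give `(e + 1) d_{k+2} ⋯ d_c ≤ (2 c) ^ c ∏ e_j`.

4. (`Grow`, `Union`, `Main`) `∏_j e_j(ρ) ≤ (4 c) ^ (c (c + 1) / 2) |Γ|` for one of the points `ρ`: the
Hilbert function of `Γ` grows, by Noether's normalization for the components of the zero set of the
polynomials of degree at most `t`, as long as `D(ρ, t) ≥ j`.

The starting result `MP_47ab85_ag.QuasiPolynomial` (all subschemes) has the bound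
`3 ^ (r (r - 1) / 2) D ^ r (D + 1)` for `D = d_c` and `m + 1 ≥ 3 ^ r D`, so `r` is of the order
`log (m / D)`, less than `log_3 c`; the exponent of the degrees in the question is up to `c`.
-/

set_option autoImplicit false

open MvPolynomial

namespace Pool.Agent.Results.MP_47ab85_ag.UpToConstant

/-- **The degree bound up to a constant.** Let `K` be algebraically closed, and let `F_1, …, F_c` be forms
of degrees `d_1 ≤ ⋯ ≤ d_c` on `ℙ^c` with only finitely many common zeros. Let `Γ` be a finite set of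
points of `ℙ^c` (given by vectors which are not proportional) which are common zeros of the `F_i`. Let
`∑_{i ≥ k + 2} (d_i - 1) ≤ m + 1`, `0 ≤ k ≤ c - 1`. If `Γ` fails to impose independent conditions on the
forms of degree `m` (there are values at the points of `Γ` which are not the values of such a form), then
`(e + 1) d_{k+2} ⋯ d_c ≤ (2 c) ^ c (4 c) ^ (c (c + 1) / 2) |Γ|` with
`e = m + 1 - ∑_{i ≥ k + 2} (d_i - 1)`. -/
theorem result (K : Type) [Field K] [IsAlgClosed K] (c : ℕ) (d : ℕ → ℕ)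
    (F : ℕ → MvPolynomial (Fin (c + 1)) K) (hd1 : ∀ i ∈ Finset.Icc 1 c, 1 ≤ d i)
    (hd : ∀ i j : ℕ, 1 ≤ i → i ≤ j → j ≤ c → d i ≤ d j)
    (hF : ∀ i ∈ Finset.Icc 1 c, (F i).IsHomogeneous (d i))
    (hfin : ∀ j : Fin (c + 1), Set.Finite {x : Fin (c + 1) → K | x j = 1 ∧
      ∀ i ∈ Finset.Icc 1 c, eval x (F i) = 0})
    (Γ : Finset (Fin (c + 1) → K)) (hΓ0 : ∀ P ∈ Γ, P ≠ 0)
    (hΓ : ∀ P ∈ Γ, ∀ Q ∈ Γ, P ≠ Q → ∀ t : K, P ≠ t • Q)
    (hX : ∀ P ∈ Γ, ∀ i ∈ Finset.Icc 1 c, eval P (F i) = 0)
    (m k : ℕ) (hk : k + 1 ≤ c) (hm : ∑ i ∈ Finset.Icc (k + 2) c, (d i - 1) ≤ m + 1)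
    (hfail : ∃ a : (Fin (c + 1) → K) → K,
      ¬ ∃ G ∈ homogeneousSubmodule (Fin (c + 1)) K m, ∀ P ∈ Γ, eval P G = a P) :
    (m + 1 - (∑ i ∈ Finset.Icc (k + 2) c, (d i - 1)) + 1) * ∏ i ∈ Finset.Icc (k + 2) c, d i ≤
      (2 * c) ^ c * ((4 * c) ^ (c * (c + 1) / 2) * Γ.card) := by
  classical
  -- the evaluation map
  obtain ⟨φ, hφ0, hφ⟩ : ∃ φ : (Γ → K) →ₗ[K] K, φ ≠ 0 ∧ ∀ G : MvPolynomial (Fin (c + 1)) K,
      G.IsHomogeneous m → φ (fun P => eval P.1 G) = 0 := by
    obtain ⟨ev, hev⟩ : ∃ ev : homogeneousSubmodule (Fin (c + 1)) K m →ₗ[K] (Γ → K),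
        ∀ G P, ev G P = eval P.1 G.1 :=
      ⟨LinearMap.pi fun P => (aeval P.1 : MvPolynomial (Fin (c + 1)) K →ₐ[K] K).toLinearMap.comp
        (Submodule.subtype _), fun G P => by
          change aeval P.1 G.1 = eval P.1 G.1
          rw [aeval_eq_eval]⟩
    have h1 : LinearMap.range ev < ⊤ := by
      rw [lt_top_iff_ne_top]
      intro htop
      obtain ⟨a, ha⟩ := hfail
      have h2 : (fun P : Γ => a P.1) ∈ LinearMap.range ev := by
        rw [htop]
        trivial
      obtain ⟨G, hG⟩ := h2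
      exact ha ⟨G.1, G.2, fun P hP => by rw [← hev G ⟨P, hP⟩, hG]⟩
    obtain ⟨φ, hφ0, hφ⟩ := Submodule.exists_le_ker_of_lt_top _ h1
    refine ⟨φ, hφ0, fun G hG => ?_⟩
    have h2 : φ (ev ⟨G, hG⟩) = 0 := hφ ⟨_, rfl⟩
    rw [← h2]
    congr 1
    funext P
    rw [hev]
  obtain ⟨lam, hlam⟩ : ∃ lam : Γ → K, ∀ P, lam P = φ (Pi.single P 1) := ⟨_, fun _ => rfl⟩
  have hφs : ∀ v : Γ → K, φ v = ∑ P, lam P * v P := by
    intro v
    conv_lhs => rw [← Finset.univ_sum_single v]
    rw [map_sum]
    refine Finset.sum_congr rfl fun P _ => ?_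
    have h1 : (Pi.single P (v P) : Γ → K) = v P • Pi.single P 1 := by
      rw [← Pi.single_smul, smul_eq_mul, mul_one]
    rw [h1, map_smul, smul_eq_mul, hlam, mul_comm]
  have hne : ∃ P, lam P ≠ 0 := by
    by_contra hcon
    push Not at hcon
    refine hφ0 (LinearMap.ext fun v => ?_)
    rw [hφs, Finset.sum_eq_zero fun P _ => by rw [hcon, zero_mul], LinearMap.zero_apply]
  have : Nonempty {P : Γ // lam P ≠ 0} := nonempty_subtype.2 hne
  have hcard : Fintype.card {P : Γ // lam P ≠ 0} ≤ Γ.card := by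
    refine (Fintype.card_subtype_le _).trans ?_
    rw [Fintype.card_coe]
  have hrange : ∀ i < c, i + 1 ∈ Finset.Icc 1 c := fun i hi => Finset.mem_Icc.2 ⟨by omega, by omega⟩
  have hsum : ∑ j ∈ Finset.range (c - 1 - k), (d (c - 1 - j + 1) - 1) =
      ∑ i ∈ Finset.Icc (k + 2) c, (d i - 1) := by
    refine Finset.sum_bij' (fun j _ => c - 1 - j + 1) (fun i _ => c - i) ?_ ?_ ?_ ?_ ?_
    · intro j hj
      rw [Finset.mem_range] at hj
      rw [Finset.mem_Icc]
      omega
    · intro i hi
      rw [Finset.mem_Icc] at hi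
      rw [Finset.mem_range]
      omega
    · intro j hj
      rw [Finset.mem_range] at hj
      omega
    · intro i hi
      rw [Finset.mem_Icc] at hi
      omega
    · intro j _
      rfl
  have hprod : ∏ j ∈ Finset.range (c - 1 - k), d (c - 1 - j + 1) =
      ∏ i ∈ Finset.Icc (k + 2) c, d i := by
    refine Finset.prod_bij' (fun j _ => c - 1 - j + 1) (fun i _ => c - i) ?_ ?_ ?_ ?_ ?_
    · intro j hj
      rw [Finset.mem_range] at hj
      rw [Finset.mem_Icc]
      omega
    · intro i hi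
      rw [Finset.mem_Icc] at hi
      rw [Finset.mem_range]
      omega
    · intro j hj
      rw [Finset.mem_range] at hj
      omega
    · intro i hi
      rw [Finset.mem_Icc] at hi
      omega
    · intro j _
      rfl
  have key := Pool.Agent.U598.PS.egh_wt (K := K) (c := c) (m := m) (κ := c - 1 - k)
    (e := m + 1 - ∑ i ∈ Finset.Icc (k + 2) c, (d i - 1)) (by omega)
    (fun P : {P : Γ // lam P ≠ 0} => P.1.1) (fun P => hΓ0 _ P.1.2)
    (fun P Q hPQ t h => hΓ _ P.1.2 _ Q.1.2 (fun h' => hPQ (Subtype.ext (Subtype.ext h'))) t h)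
    (fun i => F (i + 1)) (fun i => d (i + 1)) (fun i j hij hj => hd _ _ (by omega) (by omega) (by omega))
    (fun i hi => hd1 _ (hrange i hi)) (fun i hi => hF _ (hrange i hi))
    (fun j => (hfin j).subset fun x hx => ⟨hx.1, fun i hi => by
      rw [Finset.mem_Icc] at hi
      have h1 := hx.2 (i - 1) (by omega)
      rwa [Nat.sub_add_cancel hi.1] at h1⟩)
    (fun i hi P => hX _ P.1.2 _ (hrange i hi)) (fun P => lam P.1) (fun P => P.2)
    (fun G hG => by
      have h1 := hφ G hG
      rw [hφs] at h1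
      refine Eq.trans ?_ h1
      refine (Finset.sum_subtype (Finset.univ.filter fun P : Γ => lam P ≠ 0)
        (fun P => ?_) (fun P : Γ => lam P * eval P.1 G)).symm.trans ?_
      · rw [Finset.mem_filter]
        exact ⟨fun h => h.2, fun h => ⟨Finset.mem_univ _, h⟩⟩
      · refine Finset.sum_filter_of_ne fun P _ h h0 => h ?_
        rw [h0, zero_mul]) (by omega)
    (by
      rw [hsum]
      omega)
  rw [hprod] at key
  exact key.trans (Nat.mul_le_mul_left _ (Nat.mul_le_mul_left _ hcard))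

end Pool.Agent.Results.MP_47ab85_ag.UpToConstant
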